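import Pool.Agent.helper17.MLG.Spec

/-! # MLG: row RHA -/

set_option autoImplicit false
set_option linter.unusedSectionVars false
set_option linter.unusedVariables false

namespace Pool.Agent.MLG

open MeasureTheory Set Filter Topology Module
open scoped ENNReal ContDiff Pointwise

section

variable {V : Type} [NormedAddCommGroup V] [InnerProductSpace ℝ V] [FiniteDimensional ℝ V] [MeasurableSpace V]
  [BorelSpace V] [Group V]

/-- the derivative of `s ↦ Ψ(x⁻¹ (1 + s ν))` -/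
noncomputable def RHA_F (Ψ : V → ℝ) (ν : V) (s : ℝ) (x : V) : ℝ :=
  fderiv ℝ Ψ (x⁻¹ * (1 + s • ν)) (fderiv ℝ (fun y : V => x⁻¹ * y) (1 + s • ν) ν)

theorem RHA_deriv (h : IsLie V) {Ψ : V → ℝ} (hΨ : ContDiff ℝ 1 Ψ) (ν : V) (s : ℝ) (x : V) :
    HasDerivAt (fun s : ℝ => Ψ (x⁻¹ * (1 + s • ν))) (RHA_F Ψ ν s x) s := by
  have h1 : HasDerivAt (fun s : ℝ => (1 : V) + s • ν) ν s := by
    have h0 := ((hasDerivAt_id s).smul_const ν).const_add (1 : V)
    rw [one_smul] at h0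
    exact h0
  have h2 : HasFDerivAt (fun y : V => x⁻¹ * y) (fderiv ℝ (fun y : V => x⁻¹ * y) (1 + s • ν)) (1 + s • ν) :=
    ((smooth_left h x⁻¹).differentiable (by simp) _).hasFDerivAt
  have h3 : HasFDerivAt Ψ (fderiv ℝ Ψ (x⁻¹ * (1 + s • ν))) (x⁻¹ * (1 + s • ν)) :=
    (hΨ.differentiable (by simp) _).hasFDerivAt
  have h4 := h2.comp_hasDerivAt s h1
  exact h3.comp_hasDerivAt s h4

theorem RHA_cont (h : IsLie V) {Ψ : V → ℝ} (hΨ : ContDiff ℝ 1 Ψ) (ν : V) :
    Continuous (fun p : ℝ × V => RHA_F Ψ ν p.1 p.2) := by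
  have hc : Continuous (fun p : ℝ × V => ((1 : V) + p.1 • ν)) := by fun_prop
  have hinv : Continuous (fun p : ℝ × V => p.2⁻¹) := h.2.continuous.comp continuous_snd
  have h1 : Continuous (fun p : ℝ × V => p.2⁻¹ * (1 + p.1 • ν)) :=
    h.1.continuous.comp (hinv.prodMk hc)
  have h2 : Continuous (fun q : V × V => fderiv ℝ (fun y : V => q.1 * y) q.2) := by
    have h20 : ContDiff ℝ 0
        (fun q : V × V => fderiv ℝ ((fun (q : V × V) (y : V) => q.1 * y) q) (Prod.snd q)) := by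
      refine ContDiff.fderiv (m := ∞) ?_ contDiff_snd (by simp)
      exact h.1.comp ((contDiff_fst.comp contDiff_fst).prodMk contDiff_snd)
    exact h20.continuous
  have h3 := h2.comp (hinv.prodMk hc)
  have h4 : Continuous (fderiv ℝ Ψ) := hΨ.continuous_fderiv (by simp)
  have h5 := h4.comp h1
  exact h5.clm_apply (h3.clm_apply continuous_const)

end

theorem RHA (hFRA : FRA_stmt) (hMES : MES_stmt) : RHA_stmt := by
  intro V _ _ _ _ _ _ hV Ψ ν hΨ hsupp hnn x₀
  have := top hV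
  have : (vol V).IsHaarMeasure := (hMES V hV).1
  obtain ⟨K', hK', hmem⟩ : ∃ K' : Set V, IsCompact K' ∧ ∀ s ∈ Icc (-1 : ℝ) 1, ∀ x : V,
      x⁻¹ * (1 + s • ν) ∈ tsupport Ψ → x ∈ K' := by
    refine ⟨((fun s : ℝ => (1 : V) + s • ν) '' Icc (-1) 1) * (tsupport Ψ)⁻¹,
      (isCompact_Icc.image (by fun_prop)).mul hsupp.isCompact.inv, ?_⟩
    intro s hs x hx
    refine Set.mem_mul.2 ⟨1 + s • ν, ⟨s, hs, rfl⟩, (x⁻¹ * (1 + s • ν))⁻¹, Set.inv_mem_inv.2 hx, ?_⟩
    rw [mul_inv_rev, inv_inv, mul_inv_cancel_left]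
  have hzero : ∀ s ∈ Icc (-1 : ℝ) 1, ∀ x ∉ K', RHA_F Ψ ν s x = 0 := by
    intro s hs x hx
    have h1 : x⁻¹ * (1 + s • ν) ∉ tsupport Ψ := fun h => hx (hmem s hs x h)
    have h2 : fderiv ℝ Ψ (x⁻¹ * (1 + s • ν)) = 0 :=
      image_eq_zero_of_notMem_tsupport (fun h => h1 (tsupport_fderiv_subset ℝ h))
    unfold RHA_F
    rw [h2]
    rfl
  have hFc := RHA_cont hV hΨ ν
  obtain ⟨M, hM⟩ := (isCompact_Icc (a := (-1 : ℝ)) (b := 1)).prod hK' |>.exists_bound_of_continuousOn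
    hFc.continuousOn
  have hmv : ∀ s : ℝ, Continuous (fun x : V => Ψ (x⁻¹ * (1 + s • ν))) := fun s =>
    hΨ.continuous.comp (continuous_inv.mul continuous_const)
  have hint : Integrable (fun x : V => Ψ (x⁻¹ * (1 + (0 : ℝ) • ν))) (vol V) := by
    refine (hmv 0).integrable_of_hasCompactSupport (HasCompactSupport.of_support_subset_isCompact hK' ?_)
    intro x hx
    exact hmem 0 ⟨by norm_num, by norm_num⟩ x (subset_tsupport _ hx)
  have hbi : Integrable (K'.indicator (fun _ : V => M)) (vol V) :=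
    (integrable_indicator_iff hK'.measurableSet).2 (integrableOn_const hK'.measure_lt_top.ne)
  have hF0 : Continuous (RHA_F Ψ ν 0) := hFc.comp (continuous_const.prodMk continuous_id)
  have hD := hasDerivAt_integral_of_dominated_loc_of_deriv_le (μ := vol V) (s := Icc (-1 : ℝ) 1)
    (x₀ := (0 : ℝ)) (F := fun (s : ℝ) (x : V) => Ψ (x⁻¹ * (1 + s • ν))) (F' := RHA_F Ψ ν)
    (bound := K'.indicator (fun _ : V => M))
    (Icc_mem_nhds (by norm_num) (by norm_num))
    (Filter.Eventually.of_forall fun s => (hmv s).aestronglyMeasurable) hint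
    hF0.aestronglyMeasurable
    (Filter.Eventually.of_forall fun x s hs => by
      by_cases hx : x ∈ K'
      · rw [Set.indicator_of_mem hx]
        exact hM (s, x) ⟨hs, hx⟩
      · rw [Set.indicator_of_notMem hx, hzero s hs x hx, norm_zero])
    hbi
    (Filter.Eventually.of_forall fun x s _ => RHA_deriv hV hΨ ν s x)
  have hconst : ∀ s : ℝ, ∫ x : V, Ψ (x⁻¹ * (1 + s • ν)) ∂(vol V) = ∫ x : V, Ψ x⁻¹ ∂(vol V) := by
    intro s
    have h1 := integral_mul_left_eq_self (μ := vol V) (fun x : V => Ψ x⁻¹) (1 + s • ν)⁻¹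
    rw [← h1]
    refine integral_congr_ae (Filter.Eventually.of_forall fun x => ?_)
    show Ψ (x⁻¹ * (1 + s • ν)) = Ψ ((1 + s • ν)⁻¹ * x)⁻¹
    rw [mul_inv_rev, inv_inv]
  have hzero2 : ∫ x : V, RHA_F Ψ ν 0 x ∂(vol V) = 0 := by
    have h1 := hD.2
    simp only [hconst] at h1
    exact h1.unique (hasDerivAt_const _ _)
  have hval : ∀ x : V, RHA_F Ψ ν 0 x = fderiv ℝ Ψ x⁻¹ (fr x⁻¹ ν) := by
    intro x
    unfold RHA_F fr
    rw [zero_smul, add_zero, mul_one]
  by_contra hne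
  have hnn2 : (0 : V → ℝ) ≤ RHA_F Ψ ν 0 := by
    intro x
    rw [hval x]
    exact hnn _
  have hcs : HasCompactSupport (RHA_F Ψ ν 0) := by
    refine HasCompactSupport.of_support_subset_isCompact hK' ?_
    intro x hx
    by_contra hx2
    exact hx (hzero 0 ⟨by norm_num, by norm_num⟩ x hx2)
  have hpos := hF0.integral_pos_of_hasCompactSupport_nonneg_nonzero (μ := vol V) (x := x₀⁻¹) hcs hnn2 (by
    rw [hval, inv_inv]
    exact hne)
  exact hpos.ne' hzero2

end Pool.Agent.MLG
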